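import Pool.Agent.H65.EN.Targets

/-!
# Row CON of enx_modules (MP_e21eee_nt): the content
-/

set_option autoImplicit false

namespace Pool.Agent.H12.EN

open Finset MeasureTheory
open Pool.Agent.H24.CL Pool.Agent.H24.LV Pool.Agent.H31.LV Pool.Agent.H50.LV Pool.Agent.H65.EN

private theorem desc_dvd (k m n : ℕ) (h : m ≤ n) : k.descFactorial m ∣ k.descFactorial n := by
  induction n, h using Nat.le_induction with
  | base => exact dvd_rfl
  | succ n _ ih =>
    rw [Nat.descFactorial_succ]
    exact ih.trans (dvd_mul_left _ _)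

private theorem claim {k : ℕ} (f : Fin k → ℤ) (h : ℕ) (c : ℤ)
    (hc : ∀ j < k - 1, c ∣ dz f h j) (n : ℕ) : ∀ i : Fin k, i.val ≠ 0 → k - i.val ≤ n →
      c ∣ (k.descFactorial (k - i.val) : ℤ) * h * f i := by
  induction n with
  | zero =>
    intro i _ hi
    have := i.isLt
    omega
  | succ n ih =>
    intro i hi0 hin
    have hik := i.isLt
    set m := k - i.val - 1 with hm
    have hm1 : k - i.val = m + 1 := by omega
    have e1 : (k.descFactorial (k - i.val) : ℤ) = ((i.val : ℤ) + 1) * (k.descFactorial m : ℤ) := by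
      rw [hm1, Nat.descFactorial_succ]
      have : k - m = i.val + 1 := by omega
      rw [this]
      push_cast
      ring
    have h1 : c ∣ (k.descFactorial m : ℤ) * dz f h (i.val - 1) :=
      (hc (i.val - 1) (by omega)).mul_left _
    unfold dz at h1
    rw [Finset.mul_sum, ← Finset.add_sum_erase _ _ (Finset.mem_univ i)] at h1
    have h2 : c ∣ ∑ x ∈ univ.erase i, (k.descFactorial m : ℤ) *
        (if x.val ≤ i.val - 1 then 0 else
          f x * (Nat.choose (x.val + 1) (i.val - 1 + 1) : ℤ) * (h : ℤ) ^ (x.val - (i.val - 1))) := by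
      refine Finset.dvd_sum fun x hx => ?_
      have hxi : x ≠ i := (Finset.mem_erase.1 hx).1
      have hxi' : x.val ≠ i.val := fun he => hxi (Fin.ext he)
      have hxk := x.isLt
      by_cases hle : x.val ≤ i.val - 1
      · rw [if_pos hle, mul_zero]
        exact dvd_zero _
      · rw [if_neg hle]
        have h3 := ih x (by omega) (by omega)
        obtain ⟨d, hd⟩ := desc_dvd k (k - x.val) m (by omega)
        obtain ⟨r, hr⟩ := h3
        have e2 : (h : ℤ) ^ (x.val - (i.val - 1)) = h * (h : ℤ) ^ (x.val - i.val) := by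
          rw [← pow_succ']
          congr 1
          omega
        have e3 : (k.descFactorial m : ℤ) = (k.descFactorial (k - x.val) : ℤ) * d := by
          rw [hd]
          push_cast
          ring
        rw [e2, e3]
        refine ⟨r * (d * (Nat.choose (x.val + 1) (i.val - 1 + 1) : ℤ) *
          (h : ℤ) ^ (x.val - i.val)), ?_⟩
        calc (k.descFactorial (k - x.val) : ℤ) * d * (f x *
              (Nat.choose (x.val + 1) (i.val - 1 + 1) : ℤ) * (h * (h : ℤ) ^ (x.val - i.val)))
            = ((k.descFactorial (k - x.val) : ℤ) * h * f x) *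
              (d * (Nat.choose (x.val + 1) (i.val - 1 + 1) : ℤ) *
                (h : ℤ) ^ (x.val - i.val)) := by ring
          _ = _ := by rw [hr]; ring
    have h4 := (dvd_add_left h2).1 h1
    have hnle : ¬ i.val ≤ i.val - 1 := by omega
    rw [if_neg hnle] at h4
    have e4 : i.val - 1 + 1 = i.val := by omega
    have e5 : i.val - (i.val - 1) = 1 := by omega
    rw [e4, e5, pow_one, Nat.choose_succ_self_right] at h4
    rw [e1]
    have e6 : ((i.val : ℤ) + 1) * (k.descFactorial m : ℤ) * h * f i =
        (k.descFactorial m : ℤ) * (f i * ((i.val + 1 : ℕ) : ℤ) * h) := by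
      push_cast
      ring
    rw [e6]
    exact h4

theorem pf_CON : T_CON := by
  intro k q h f _ hP
  constructor
  · set c := ct q f h with hcdef
    have hcq : c ∣ q := Nat.gcd_dvd_left _ _
    have hcd : ∀ j < k - 1, (c : ℤ) ∣ dz f h j := by
      intro j hj
      rw [Int.natCast_dvd]
      exact (Nat.gcd_dvd_right _ _).trans (Finset.gcd_dvd (Finset.mem_range.2 hj))
    have h1 : ∀ i : Fin k, i.val ≠ 0 → c ∣ (k.factorial * h) * (f i).natAbs := by
      intro i hi
      have h2 := claim f h (c : ℤ) hcd k i hi (Nat.sub_le _ _)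
      rw [Int.natCast_dvd, Int.natAbs_mul, Int.natAbs_mul, Int.natAbs_natCast,
        Int.natAbs_natCast] at h2
      refine h2.trans (Nat.mul_dvd_mul (Nat.mul_dvd_mul ?_ dvd_rfl) dvd_rfl)
      have h3 := desc_dvd k (k - i.val) k (Nat.sub_le _ _)
      rwa [Nat.descFactorial_self] at h3
    set G := (univ.filter fun i : Fin k => i.val ≠ 0).gcd fun i => (f i).natAbs with hG
    have h4 : c ∣ (k.factorial * h) * G := by
      have h5 : c ∣ (univ.filter fun i : Fin k => i.val ≠ 0).gcd
          fun i => (k.factorial * h) * (f i).natAbs :=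
        Finset.dvd_gcd fun i hi => h1 i (Finset.mem_filter.1 hi).2
      rw [Finset.gcd_mul_left] at h5
      simpa using h5
    have h6 : Nat.Coprime c G := by
      refine hP (Nat.gcd c G) ((Nat.gcd_dvd_left _ _).trans hcq) fun i hi => ?_
      rw [Int.natCast_dvd]
      exact (Nat.gcd_dvd_right _ _).trans
        (Finset.gcd_dvd (Finset.mem_filter.2 ⟨Finset.mem_univ i, hi⟩))
    exact h6.dvd_of_dvd_mul_right h4
  · refine Nat.dvd_gcd (Nat.gcd_dvd_right _ _) (Finset.dvd_gcd fun j _ => ?_)
    refine (Nat.gcd_dvd_left h q).trans ?_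
    rw [← Int.natCast_dvd]
    unfold dz
    refine Finset.dvd_sum fun i _ => ?_
    split_ifs with hij
    · exact dvd_zero _
    · exact (dvd_pow_self (h : ℤ) (by omega)).mul_left _

end Pool.Agent.H12.EN
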